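import Pool.Agent.H4.TA.Targets2

/-!
# Return probabilities in the plane

In the coordinates x + y, x - y the walk consists of two independent sequences of signs.
-/

set_option autoImplicit false

open Finset Filter Topology Pool.Agent.H43.TC Pool.Agent.H4.TA

namespace Pool.Agent.H35.TAS

/-- the letters and the pairs of signs -/
def eq4 : Fin 2 × Bool ≃ Bool × Bool where
  toFun a := if a.1 = 0 then (a.2, a.2) else (a.2, !a.2)
  invFun p := if p.1 = p.2 then (0, p.1) else (1, p.1)
  left_inv := by decide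
  right_inv := by decide

/-- the value of a sign -/
def sg (b : Bool) : ℤ := if b then 1 else -1

theorem stp_add : ∀ a : Fin 2 × Bool, stp a 0 + stp a 1 = sg (eq4 a).1 := by
  rintro ⟨i, b⟩
  fin_cases i <;> cases b <;> simp [stp, un, sg, eq4]

theorem stp_sub : ∀ a : Fin 2 × Bool, stp a 0 - stp a 1 = sg (eq4 a).2 := by
  rintro ⟨i, b⟩
  fin_cases i <;> cases b <;> simp [stp, un, sg, eq4]

/-- words and pairs of sequences of signs -/
def eqW (t : ℕ) : Wd 2 t ≃ (Fin t → Bool) × (Fin t → Bool) :=
  (Equiv.arrowCongr (Equiv.refl (Fin t)) eq4).trans (Equiv.arrowProdEquivProdArrow _ _ _)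

theorem pos_eq_zero (t : ℕ) (w : Wd 2 t) : pos w t = 0 ↔
    (∑ l, sg ((eqW t w).1 l) = 0 ∧ ∑ l, sg ((eqW t w).2 l) = 0) := by
  have e : pos w t = ∑ l : Fin t, stp (w l) := by
    unfold pos
    refine sum_congr rfl fun l _ => ?_
    rw [if_pos l.2]
  have e1 : ∑ l, sg ((eqW t w).1 l) = pos w t 0 + pos w t 1 := by
    rw [e, Finset.sum_apply, Finset.sum_apply, ← sum_add_distrib]
    exact sum_congr rfl fun l _ => (stp_add (w l)).symm
  have e2 : ∑ l, sg ((eqW t w).2 l) = pos w t 0 - pos w t 1 := by
    rw [e, Finset.sum_apply, Finset.sum_apply, ← sum_sub_distrib]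
    exact sum_congr rfl fun l _ => (stp_sub (w l)).symm
  rw [e1, e2]
  constructor
  · intro h
    rw [h]
    simp
  · rintro ⟨h1, h2⟩
    funext i
    have h3 : pos w t 0 = 0 := by omega
    have h4 : pos w t 1 = 0 := by omega
    fin_cases i
    · exact h3
    · exact h4

theorem sum_ind (t : ℕ) : ∑ w : Wd 2 t, ind (pos w t = 0) =
    (∑ ε : Fin t → Bool, ind (∑ l, sg (ε l) = 0)) ^ 2 := by
  have h1 : ∑ w : Wd 2 t, ind (pos w t = 0) =
      ∑ p : (Fin t → Bool) × (Fin t → Bool),
        ind (∑ l, sg (p.1 l) = 0) * ind (∑ l, sg (p.2 l) = 0) := by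
    refine Fintype.sum_equiv (eqW t) _ _ fun w => ?_
    rw [← ind_and]
    exact ind_congr (pos_eq_zero t w)
  rw [h1, Fintype.sum_prod_type, sq, Finset.sum_mul_sum]

theorem sum_sg (t : ℕ) (ε : Fin t → Bool) :
    ∑ l, sg (ε l) = 2 * ((univ.filter fun l => ε l = true).card : ℤ) - t := by
  have h1 : ∀ l, sg (ε l) = 2 * (if ε l = true then 1 else 0) - 1 := by
    intro l
    unfold sg
    split_ifs <;> simp
  simp_rw [h1]
  rw [sum_sub_distrib, ← mul_sum, sum_boole]
  simp

theorem cnt_even (m : ℕ) :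
    ∑ ε : Fin (2 * m) → Bool, ind (∑ l, sg (ε l) = 0) = (m.centralBinom : ℝ) := by
  have h1 : ∀ ε : Fin (2 * m) → Bool, ind (∑ l, sg (ε l) = 0) =
      if (univ.filter fun l => ε l = true).card = m then (1 : ℝ) else 0 := by
    intro ε
    by_cases h : (univ.filter fun l => ε l = true).card = m
    · rw [if_pos h]
      apply ind_true
      rw [sum_sg, h]
      push_cast
      ring
    · rw [if_neg h]
      apply ind_false
      intro h2
      rw [sum_sg] at h2
      push_cast at h2
      apply h
      omega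
  rw [Finset.sum_congr rfl fun ε _ => h1 ε, Finset.sum_boole]
  have h2 : m.centralBinom = (powersetCard m (univ : Finset (Fin (2 * m)))).card := by
    rw [card_powersetCard, card_univ, Fintype.card_fin, Nat.centralBinom_eq_two_mul_choose]
  rw [h2]
  congr 1
  apply Finset.card_bij (fun ε _ => univ.filter fun l => ε l = true)
  · intro ε hε
    rw [mem_filter] at hε
    rw [mem_powersetCard]
    exact ⟨subset_univ _, hε.2⟩
  · intro ε _ ε' _ h
    funext l
    have h3 : l ∈ (univ.filter fun l => ε l = true) ↔ l ∈ (univ.filter fun l => ε' l = true) := by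
      rw [h]
    simp only [mem_filter, mem_univ, true_and] at h3
    exact Bool.eq_iff_iff.2 h3
  · intro s hs
    rw [mem_powersetCard] at hs
    refine ⟨fun l => decide (l ∈ s), ?_, ?_⟩
    · rw [mem_filter]
      refine ⟨mem_univ _, Eq.trans ?_ hs.2⟩
      congr 1
      ext l
      simp
    · ext l
      simp

theorem cnt_odd (m : ℕ) :
    ∑ ε : Fin (2 * m + 1) → Bool, ind (∑ l, sg (ε l) = 0) = 0 := by
  apply Finset.sum_eq_zero
  intro ε _
  apply ind_false
  intro h2
  rw [sum_sg] at h2
  push_cast at h2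
  omega

theorem pf_P2E : T_P2E := by
  intro m
  constructor
  · unfold pp av
    rw [sum_ind, cnt_even, div_pow, ← pow_mul, mul_comm m 2]
    norm_num
  · unfold pp av
    rw [sum_ind, cnt_odd]
    simp

end Pool.Agent.H35.TAS
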