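import Pool.Agent.H4.TA.Targets

/-!
# Double sums of a slowly varying sequence

With E m the partial sums, the double sum is the sum of q (t - m) E m over m at most t, and
E m is at most (1 + a) (m + 1) / (t + 1) E t unless M m < t.
-/

set_option autoImplicit false

open Finset

namespace Pool.Agent.H35.TAS

/-- partial sums -/
noncomputable def Ep (q : ℕ → ℝ) (m : ℕ) : ℝ := ∑ s ∈ range (m + 1), q s

theorem Ep_flip (q : ℕ → ℝ) (t : ℕ) : ∑ m ∈ range (t + 1), q (t - m) = Ep q t :=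
  Finset.sum_flip q

theorem sum_Ep (q : ℕ → ℝ) (t : ℕ) :
    ∑ m ∈ range (t + 1), q (t - m) * ((m : ℝ) + 1) = ∑ m ∈ range (t + 1), Ep q m := by
  induction t with
  | zero => simp [Ep]
  | succ t ih =>
    rw [Finset.sum_range_succ', Finset.sum_range_succ (fun m => Ep q m) (t + 1), ← ih]
    have h1 : ∀ m ∈ range (t + 1), q (t + 1 - (m + 1)) * (((m + 1 : ℕ) : ℝ) + 1) =
        q (t - m) * ((m : ℝ) + 1) + q (t - m) := by
      intro m _
      rw [Nat.add_sub_add_right]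
      push_cast
      ring
    rw [Finset.sum_congr rfl h1, Finset.sum_add_distrib, Ep_flip]
    have h2 : Ep q (t + 1) = Ep q t + q (t + 1) := by
      unfold Ep
      rw [Finset.sum_range_succ]
    rw [h2]
    simp only [Nat.sub_zero, Nat.cast_zero, zero_add, mul_one]
    ring

theorem Ep_mono (q : ℕ → ℝ) (hq : ∀ n, 0 < q n) (m t : ℕ) (h : m ≤ t) : Ep q m ≤ Ep q t := by
  unfold Ep
  apply Finset.sum_le_sum_of_subset_of_nonneg
  · intro x hx
    rw [mem_range] at hx ⊢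
    omega
  · intro i _ _
    exact (hq i).le

theorem Ep_pos (q : ℕ → ℝ) (hq : ∀ n, 0 < q n) (m : ℕ) : 0 < Ep q m := by
  unfold Ep
  exact Finset.sum_pos (fun i _ => hq i) ⟨0, by simp⟩

theorem le_Ep (q : ℕ → ℝ) (hqa : Antitone q) (t : ℕ) : ((t : ℝ) + 1) * q t ≤ Ep q t := by
  unfold Ep
  have h : ∑ _s ∈ range (t + 1), q t ≤ ∑ s ∈ range (t + 1), q s := by
    apply Finset.sum_le_sum
    intro i hi
    rw [mem_range] at hi
    exact hqa (by omega)
  rw [Finset.sum_const, card_range, nsmul_eq_mul] at h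
  push_cast at h
  exact h

theorem cnt_le (t M : ℕ) (hM : 1 ≤ M) :
    ((((range (t + 1)).filter (fun m => ¬ t ≤ M * m)).card : ℕ) : ℝ) ≤ (t : ℝ) / M + 1 := by
  have h1 : ((range (t + 1)).filter (fun m => ¬ t ≤ M * m)).card ≤ t / M + 1 := by
    have h2 : (range (t + 1)).filter (fun m => ¬ t ≤ M * m) ⊆ range (t / M + 1) := by
      intro m hm
      rw [mem_filter] at hm
      rw [mem_range, Nat.lt_succ_iff, Nat.le_div_iff_mul_le (by omega)]
      have := hm.2
      rw [mul_comm]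
      omega
    have h3 := card_le_card h2
    rwa [card_range] at h3
  have h4 : ((t / M : ℕ) : ℝ) ≤ (t : ℝ) / M := Nat.cast_div_le
  have h5 : ((((range (t + 1)).filter (fun m => ¬ t ≤ M * m)).card : ℕ) : ℝ) ≤
      ((t / M + 1 : ℕ) : ℝ) := by exact_mod_cast h1
  push_cast at h5
  linarith

theorem sum_succ_cast (t : ℕ) :
    ∑ m ∈ range (t + 1), ((m : ℝ) + 1) = ((t : ℝ) + 1) * ((t : ℝ) + 2) / 2 := by
  induction t with
  | zero => norm_num
  | succ t ih =>
    rw [Finset.sum_range_succ, ih]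
    push_cast
    ring

theorem main_ineq (q : ℕ → ℝ) (hqa : Antitone q) (hq : ∀ n, 0 < q n) (t M : ℕ) (a : ℝ)
    (ha : 0 < a) (hM : 2 ≤ M)
    (h1 : ∀ m, m ≤ t → t ≤ M * m → Ep q m * (t + 1) ≤ (1 + a) * ((m + 1) * Ep q t))
    (h2 : ∀ i, i ≤ t → t ≤ 2 * i → q i ≤ (1 + a) * q t) :
    (∑ m ∈ range (t + 1), q (t - m) * Ep q m) * (t + 1) ≤
      ((1 + a) * ((1 + a) * (((t : ℝ) + 2) / 2) + ((t : ℝ) / M + 1)) +
        (1 + a) * ((t : ℝ) / M + 1)) * Ep q t ^ 2 := by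
  have hE := Ep_pos q hq t
  have hcnt := cnt_le t M (by omega)
  set cnt : ℝ := ((((range (t + 1)).filter (fun m => ¬ t ≤ M * m)).card : ℕ) : ℝ) with hcntd
  have ht1 : (0 : ℝ) < (t : ℝ) + 1 := by positivity
  -- first step
  have hW : ∑ m ∈ range (t + 1), Ep q m ≤
      (1 + a) * (((t : ℝ) + 2) / 2) * Ep q t + cnt * Ep q t := by
    have h3 : ∀ m ∈ range (t + 1), Ep q m * (t + 1) ≤
        (1 + a) * Ep q t * ((m : ℝ) + 1) +
          (if ¬ t ≤ M * m then (t + 1) * Ep q t else 0) := by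
      intro m hm
      rw [mem_range] at hm
      by_cases hc : t ≤ M * m
      · rw [if_neg (not_not.2 hc)]
        have := h1 m (by omega) hc
        nlinarith
      · rw [if_pos hc]
        have h4 := Ep_mono q hq m t (by omega)
        have h5 : 0 ≤ (1 + a) * Ep q t * ((m : ℝ) + 1) := by positivity
        nlinarith
    have h4 := Finset.sum_le_sum h3
    rw [Finset.sum_add_distrib, ← Finset.mul_sum, ← Finset.sum_mul, sum_succ_cast,
      ← Finset.sum_filter, Finset.sum_const, nsmul_eq_mul, ← hcntd] at h4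
    have h5 : (∑ m ∈ range (t + 1), Ep q m) * ((t : ℝ) + 1) ≤
        ((1 + a) * (((t : ℝ) + 2) / 2) * Ep q t + cnt * Ep q t) * ((t : ℝ) + 1) := by
      refine h4.trans (le_of_eq ?_)
      ring
    exact le_of_mul_le_mul_right h5 ht1
  -- second step
  have h3 : ∀ m ∈ range (t + 1), q (t - m) * Ep q m * (t + 1) ≤
      (1 + a) * Ep q t * (q (t - m) * ((m : ℝ) + 1)) +
        (if ¬ t ≤ M * m then (1 + a) * Ep q t ^ 2 else 0) := by
    intro m hm
    rw [mem_range] at hm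
    have hqm := hq (t - m)
    by_cases hc : t ≤ M * m
    · rw [if_neg (not_not.2 hc)]
      have h5 := mul_le_mul_of_nonneg_left (h1 m (by omega) hc) hqm.le
      nlinarith
    · rw [if_pos hc]
      have h4 := Ep_mono q hq m t (by omega)
      have h5 : 0 ≤ (1 + a) * Ep q t * (q (t - m) * ((m : ℝ) + 1)) := by positivity
      have h6 : t ≤ 2 * (t - m) := by
        have : 2 * m ≤ M * m := Nat.mul_le_mul_right m hM
        omega
      have h7 := h2 (t - m) (by omega) h6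
      have h8 := le_Ep q hqa t
      have h9 := Ep_pos q hq m
      have h10 : q (t - m) * Ep q m * (t + 1) ≤ (1 + a) * Ep q t ^ 2 := by
        calc q (t - m) * Ep q m * (t + 1) ≤ ((1 + a) * q t) * Ep q t * (t + 1) := by
              apply mul_le_mul_of_nonneg_right _ ht1.le
              exact mul_le_mul h7 h4 h9.le (by have := hq t; positivity)
          _ = (1 + a) * Ep q t * (((t : ℝ) + 1) * q t) := by ring
          _ ≤ (1 + a) * Ep q t * Ep q t := by
              apply mul_le_mul_of_nonneg_left h8 (by positivity)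
          _ = (1 + a) * Ep q t ^ 2 := by ring
      linarith
  have h4 := Finset.sum_le_sum h3
  rw [Finset.sum_add_distrib, ← Finset.mul_sum, ← Finset.sum_mul, sum_Ep,
    ← Finset.sum_filter, Finset.sum_const, nsmul_eq_mul, ← hcntd] at h4
  refine h4.trans ?_
  have h5 : (1 + a) * Ep q t * (∑ m ∈ range (t + 1), Ep q m) ≤
      (1 + a) * Ep q t * ((1 + a) * (((t : ℝ) + 2) / 2) * Ep q t + cnt * Ep q t) :=
    mul_le_mul_of_nonneg_left hW (by positivity)
  have h6 : cnt * ((1 + a) * Ep q t ^ 2) ≤ ((t : ℝ) / M + 1) * ((1 + a) * Ep q t ^ 2) :=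
    mul_le_mul_of_nonneg_right hcnt (by positivity)
  nlinarith

theorem num (a b c : ℝ) (ha : 0 < a) (ha2 : a ≤ 1 / 20) (hb : b ≤ a) (hc : c ≤ a) :
    (1 + a) * ((1 + a) * ((1 + c) / 2) + (b + c)) + (1 + a) * (b + c) ≤ 1 / 2 + 20 * a := by
  have h1 : (1 + a) * ((1 + a) * ((1 + c) / 2) + (b + c)) + (1 + a) * (b + c) ≤
      (1 + a) * ((1 + a) * ((1 + a) / 2) + (a + a)) + (1 + a) * (a + a) := by
    gcongr
  refine h1.trans ?_
  nlinarith [mul_pos ha ha, mul_pos (mul_pos ha ha) ha]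

theorem pf_SM2 (hSL2 : Pool.Agent.H4.TA.T_SL2) : Pool.Agent.H4.TA.T_SM2 := by
  intro q hqa hq hsv e he
  obtain ⟨-, hS⟩ := hSL2 q hqa hq hsv
  set a : ℝ := min e 1 / 20 with hadef
  have hm0 : 0 < min e 1 := lt_min he one_pos
  have ha : 0 < a := by rw [hadef]; linarith
  have ha2 : a ≤ 1 / 20 := by
    rw [hadef]
    have := min_le_right e 1
    linarith
  have ha3 : 20 * a ≤ e := by
    rw [hadef]
    have := min_le_left e 1
    linarith
  obtain ⟨M₀, hM₀⟩ := exists_nat_ge (1 / a)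
  set M : ℕ := M₀ + 2 with hM
  have hMr : 1 / a ≤ (M : ℝ) := by
    rw [hM]
    push_cast
    linarith
  have hMpos : (0 : ℝ) < (M : ℝ) := by
    rw [hM]
    positivity
  obtain ⟨t₁, ht₁⟩ := hS M a (by omega) ha
  obtain ⟨n₀, hn₀⟩ := hsv 2 a (by norm_num) ha
  refine ⟨t₁ + 2 * n₀ + M, fun t ht => ?_⟩
  have htr : (M : ℝ) ≤ (t : ℝ) + 1 := by
    have : M ≤ t := by omega
    have : (M : ℝ) ≤ (t : ℝ) := by exact_mod_cast this
    linarith
  have ht1 : (0 : ℝ) < (t : ℝ) + 1 := by positivity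
  have h1 : ∀ m, m ≤ t → t ≤ M * m → Ep q m * (t + 1) ≤ (1 + a) * ((m + 1) * Ep q t) := by
    intro m hm hm2
    exact ht₁ t m (by omega) hm hm2
  have h2 : ∀ i, i ≤ t → t ≤ 2 * i → q i ≤ (1 + a) * q t := by
    intro i hi hi2
    exact hn₀ i t (by omega) hi hi2
  have h3 := main_ineq q hqa hq t M a ha (by omega) h1 h2
  have e1 : ∑ i ∈ range (t + 1), q i * ∑ j ∈ range (t + 1 - i), q j =
      ∑ m ∈ range (t + 1), q (t - m) * Ep q m := by
    rw [← Finset.sum_flip (fun i => q i * ∑ j ∈ range (t + 1 - i), q j)]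
    apply Finset.sum_congr rfl
    intro m hm
    rw [mem_range] at hm
    unfold Ep
    have : t + 1 - (t - m) = m + 1 := by omega
    rw [this]
  rw [e1]
  have hb : 1 / (M : ℝ) ≤ a := by
    rw [div_le_iff₀ hMpos]
    rw [div_le_iff₀ ha] at hMr
    linarith
  have hc : 1 / ((t : ℝ) + 1) ≤ a := by
    have : 1 / ((t : ℝ) + 1) ≤ 1 / (M : ℝ) := one_div_le_one_div_of_le hMpos htr
    linarith
  have hn := num a (1 / (M : ℝ)) (1 / ((t : ℝ) + 1)) ha ha2 hb hc
  have h4 : ((1 + a) * ((1 + a) * (((t : ℝ) + 2) / 2) + ((t : ℝ) / M + 1)) +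
        (1 + a) * ((t : ℝ) / M + 1)) ≤ (1 / 2 + e) * ((t : ℝ) + 1) := by
    have h5 : (t : ℝ) / M + 1 ≤ (1 / (M : ℝ) + 1 / ((t : ℝ) + 1)) * ((t : ℝ) + 1) := by
      have : (1 / (M : ℝ) + 1 / ((t : ℝ) + 1)) * ((t : ℝ) + 1) = (t : ℝ) / M + 1 + 1 / M := by
        field_simp
        ring
      rw [this]
      have : 0 ≤ 1 / (M : ℝ) := by positivity
      linarith
    have h6 : ((t : ℝ) + 2) / 2 = ((1 + 1 / ((t : ℝ) + 1)) / 2) * ((t : ℝ) + 1) := by
      field_simp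
      ring
    rw [h6]
    calc ((1 + a) * ((1 + a) * (((1 + 1 / ((t : ℝ) + 1)) / 2) * ((t : ℝ) + 1)) +
        ((t : ℝ) / M + 1)) + (1 + a) * ((t : ℝ) / M + 1))
        ≤ ((1 + a) * ((1 + a) * (((1 + 1 / ((t : ℝ) + 1)) / 2) * ((t : ℝ) + 1)) +
        ((1 / (M : ℝ) + 1 / ((t : ℝ) + 1)) * ((t : ℝ) + 1))) +
        (1 + a) * ((1 / (M : ℝ) + 1 / ((t : ℝ) + 1)) * ((t : ℝ) + 1))) := by gcongr
      _ = ((1 + a) * ((1 + a) * ((1 + 1 / ((t : ℝ) + 1)) / 2) +
        (1 / (M : ℝ) + 1 / ((t : ℝ) + 1))) +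
        (1 + a) * (1 / (M : ℝ) + 1 / ((t : ℝ) + 1))) * ((t : ℝ) + 1) := by ring
      _ ≤ (1 / 2 + 20 * a) * ((t : ℝ) + 1) := mul_le_mul_of_nonneg_right hn ht1.le
      _ ≤ (1 / 2 + e) * ((t : ℝ) + 1) := by gcongr
  have h5 : (∑ m ∈ range (t + 1), q (t - m) * Ep q m) * ((t : ℝ) + 1) ≤
      ((1 / 2 + e) * Ep q t ^ 2) * ((t : ℝ) + 1) := by
    refine h3.trans ?_
    have := mul_le_mul_of_nonneg_right h4 (sq_nonneg (Ep q t))
    linarith
  exact le_of_mul_le_mul_right h5 ht1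

end Pool.Agent.H35.TAS
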